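import Pool.Agent.Helper97.Kap.Free
import Pool.Agent.Helper97.Kap.Param
import Pool.Agent.Helper97.Kap.NotS

/-!
# The groups of `Helper97.Kap` with Poincare exponent arbitrarily close to `1/2` (helper321)

An adaptation of `Helper97/Kap/Group.lean`, `Series.lean` and `Param.lean`: the exponent `3/4` is
replaced by any `s` with `1/2 < s ≤ 3/4`.
-/

set_option autoImplicit false
set_option linter.unusedSimpArgs false

namespace Pool.Agent.Y321.Kap

open Complex ENNReal Pool.Agent.Helper97.Kap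
open Pool.Agent.Helper97.Kap.Par (Wd Red head φ_origin)

lemma summable_b {δ : ℝ} (hδ : 0 < δ) :
    Summable fun n : ℤ => ((max 1 |(n : ℝ)|) ^ (1 + δ))⁻¹ := by
  have h1 : Summable fun n : ℤ => |(n : ℝ)| ^ (-(1 + δ)) + if n = 0 then (1 : ℝ) else 0 := by
    apply Summable.add
    · exact Real.summable_abs_int_rpow (by linarith)
    · exact (hasSum_ite_eq (0 : ℤ) _).summable
  refine Summable.of_nonneg_of_le (fun n => by positivity) (fun n => ?_) h1
  by_cases hn : n = 0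
  · subst hn
    rw [if_pos rfl]
    have h2 : (0:ℝ) ≤ |((0 : ℤ) : ℝ)| ^ (-(1 + δ)) := by positivity
    have h3 : ((max 1 |((0 : ℤ) : ℝ)|) ^ (1 + δ))⁻¹ = 1 := by
      rw [Int.cast_zero, abs_zero, max_eq_left zero_le_one, Real.one_rpow, inv_one]
    rw [h3]
    linarith
  · rw [if_neg hn, add_zero]
    have h3 : 0 < |(n : ℝ)| := abs_pos.mpr (by exact_mod_cast hn)
    rw [Real.rpow_neg h3.le]
    apply inv_anti₀ (by positivity)
    exact Real.rpow_le_rpow h3.le (le_max_right _ _) (by linarith)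

lemma term_le {δ M : ℝ} (hδ : 0 < δ) (hδ2 : δ ≤ 1 / 4) (hM : 1 ≤ M) (n : ℤ) :
    (16 / max (M ^ 2) ((n : ℝ) ^ 2)) ^ ((1 + 2 * δ) / 2) ≤
      8 / M ^ δ * ((max 1 |(n : ℝ)|) ^ (1 + δ))⁻¹ := by
  set q := max M |(n : ℝ)| with hq
  have hq1 : 1 ≤ q := hM.trans (le_max_left _ _)
  have hq0 : 0 < q := by linarith
  have h1 : max (M ^ 2) ((n : ℝ) ^ 2) = q ^ 2 := by
    rw [← sq_abs (n : ℝ), hq]
    rcases le_total M |(n : ℝ)| with h | h
    · rw [max_eq_right h, max_eq_right (pow_le_pow_left₀ (by positivity) h 2)]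
    · rw [max_eq_left h, max_eq_left (pow_le_pow_left₀ (by positivity) h 2)]
  rw [h1]
  have h2 : (16 / q ^ 2) ^ ((1 + 2 * δ) / 2) ≤ 8 / (q ^ δ * q ^ (1 + δ)) := by
    have e1 : 16 / q ^ 2 = (4 / q) ^ (2 : ℝ) := by
      rw [show (2 : ℝ) = ((2 : ℕ) : ℝ) by norm_num, Real.rpow_natCast, div_pow]
      norm_num
    rw [e1, ← Real.rpow_mul (by positivity), ← Real.rpow_add hq0]
    have e2 : (2 : ℝ) * ((1 + 2 * δ) / 2) = 1 + 2 * δ := by ring
    have e3 : δ + (1 + δ) = 1 + 2 * δ := by ring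
    rw [e2, e3, Real.div_rpow (by norm_num) hq0.le]
    apply div_le_div_of_nonneg_right _ (by positivity)
    have e4 : (4 : ℝ) ^ (1 + 2 * δ) ≤ 4 ^ (3 / 2 : ℝ) :=
      Real.rpow_le_rpow_of_exponent_le (by norm_num) (by linarith)
    have e5 : (4 : ℝ) ^ (3 / 2 : ℝ) = 8 := by
      rw [show (4 : ℝ) = 2 ^ (2 : ℝ) by norm_num, ← Real.rpow_mul (by norm_num)]
      norm_num
    linarith
  refine h2.trans ?_
  have h3 : M ^ δ ≤ q ^ δ := Real.rpow_le_rpow (by linarith) (le_max_left _ _) hδ.le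
  have h4 : (max 1 |(n : ℝ)|) ^ (1 + δ) ≤ q ^ (1 + δ) := by
    apply Real.rpow_le_rpow (by positivity) _ (by linarith)
    exact max_le hq1 (le_max_right _ _)
  have h5 : 0 < (max 1 |(n : ℝ)|) ^ (1 + δ) := by
    have : 0 < max 1 |(n : ℝ)| := lt_of_lt_of_le one_pos (le_max_left _ _)
    positivity
  have h7 : 0 < M ^ δ := Real.rpow_pos_of_pos (by linarith) _
  have h6 : 8 / M ^ δ * ((max 1 |(n : ℝ)|) ^ (1 + δ))⁻¹ =
      8 / (M ^ δ * (max 1 |(n : ℝ)|) ^ (1 + δ)) := by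
    field_simp
  rw [h6]
  apply div_le_div_of_nonneg_left (by norm_num) (by positivity)
  exact mul_le_mul h3 h4 h5.le (by positivity)

lemma exists_M {δ : ℝ} (hδ : 0 < δ) (hδ2 : δ ≤ 1 / 4) : ∃ M : ℝ, 5 ≤ M ∧
    2 * ∑' n : ℤ, ENNReal.ofReal ((16 / max (M ^ 2) ((n : ℝ) ^ 2)) ^ ((1 + 2 * δ) / 2)) ≤
      1 / 2 := by
  set z : ℝ := ∑' n : ℤ, ((max 1 |(n : ℝ)|) ^ (1 + δ))⁻¹ with hz
  have hz0 : 0 ≤ z := tsum_nonneg fun n => by positivity
  set w : ℝ := 32 * (z + 1) with hw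
  have hw1 : 1 ≤ w := by linarith
  set M : ℝ := max 5 (w ^ (1 / δ)) with hMdef
  have hM5 : 5 ≤ M := le_max_left _ _
  have hwM : w ≤ M ^ δ := by
    have e : w = (w ^ (1 / δ)) ^ δ := by
      rw [← Real.rpow_mul (by linarith), one_div_mul_cancel hδ.ne', Real.rpow_one]
    calc w = (w ^ (1 / δ)) ^ δ := e
      _ ≤ M ^ δ := Real.rpow_le_rpow (by positivity) (le_max_right _ _) hδ.le
  refine ⟨M, hM5, ?_⟩
  have h1 : ∑' n : ℤ, ENNReal.ofReal ((16 / max (M ^ 2) ((n : ℝ) ^ 2)) ^ ((1 + 2 * δ) / 2)) ≤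
      ∑' n : ℤ, ENNReal.ofReal (8 / M ^ δ * ((max 1 |(n : ℝ)|) ^ (1 + δ))⁻¹) :=
    ENNReal.tsum_le_tsum fun n => ENNReal.ofReal_le_ofReal (term_le hδ hδ2 (by linarith) n)
  have h2 : ∑' n : ℤ, ENNReal.ofReal (8 / M ^ δ * ((max 1 |(n : ℝ)|) ^ (1 + δ))⁻¹) =
      ENNReal.ofReal (8 / M ^ δ * z) := by
    rw [← ENNReal.ofReal_tsum_of_nonneg (fun n => by positivity) ((summable_b hδ).mul_left _),
      tsum_mul_left]
  have h3 : 8 / M ^ δ * z ≤ 1 / 4 := by
    have h5 : 8 / M ^ δ * z ≤ 8 / w * z := by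
      apply mul_le_mul_of_nonneg_right _ hz0
      exact div_le_div_of_nonneg_left (by norm_num) (by linarith) hwM
    refine h5.trans ?_
    rw [hw]
    have : 8 / (32 * (z + 1)) * z = z / (4 * (z + 1)) := by
      field_simp
      ring
    rw [this, div_le_div_iff₀ (by positivity) (by norm_num)]
    linarith
  have h4 : ∑' n : ℤ, ENNReal.ofReal ((16 / max (M ^ 2) ((n : ℝ) ^ 2)) ^ ((1 + 2 * δ) / 2)) ≤
      ENNReal.ofReal (1 / 4) := by
    refine h1.trans ?_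
    rw [h2]
    exact ENNReal.ofReal_le_ofReal h3
  calc 2 * ∑' n : ℤ, ENNReal.ofReal ((16 / max (M ^ 2) ((n : ℝ) ^ 2)) ^ ((1 + 2 * δ) / 2)) ≤
      2 * ENNReal.ofReal (1 / 4) := mul_le_mul_right h4 2
    _ = ENNReal.ofReal (1 / 2) := by
      rw [show (2 : ℝ≥0∞) = ENNReal.ofReal 2 by simp, ← ENNReal.ofReal_mul (by norm_num)]
      norm_num
    _ = 1 / 2 := by
      rw [ENNReal.ofReal_div_of_pos (by norm_num)]
      simp

theorem exists_par {s : ℝ} (hs1 : 1 / 2 < s) (hs2 : s ≤ 3 / 4) : ∃ P : Par,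
    2 * ∑' n : ℤ, ENNReal.ofReal ((16 / max (P.M ^ 2) ((n : ℝ) ^ 2)) ^ s) ≤ 1 / 2 := by
  obtain ⟨M, hM, hsum0⟩ := exists_M (δ := s - 1 / 2) (by linarith) (by linarith)
  have es : (1 + 2 * (s - 1 / 2)) / 2 = s := by ring
  rw [es] at hsum0
  have hsum : 2 * ∑' n : ℤ, ENNReal.ofReal ((16 / max (M ^ 2) ((n : ℝ) ^ 2)) ^ (3 / 4 : ℝ)) ≤
      1 / 2 := by
    refine le_trans (mul_le_mul_right (ENNReal.tsum_le_tsum fun n => ?_) 2) hsum0
    apply ENNReal.ofReal_le_ofReal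
    have h25 : 25 ≤ max (M ^ 2) ((n : ℝ) ^ 2) := by
      have := le_max_left (M ^ 2) ((n : ℝ) ^ 2)
      nlinarith
    exact Real.rpow_le_rpow_of_exponent_ge (by positivity)
      (by rw [div_le_one (by linarith)]; linarith) hs2
  set m : ℕ := ⌈M⌉₊ + 3 with hm
  have hm0 : m ≠ 0 := by omega
  set ζ : ℂ := exp (2 * Real.pi * I / m) with hζdef
  have hprim : IsPrimitiveRoot ζ m := Complex.isPrimitiveRoot_exp m hm0
  have hnorm : ‖ζ‖ = 1 := hprim.norm'_eq_one hm0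
  have hnormSq : normSq ζ = 1 := by rw [normSq_eq_norm_sq, hnorm]; norm_num
  obtain ⟨c, hc, hcs⟩ := exists_c (Nat.pos_of_ne_zero hm0) hprim
  refine ⟨{
    ζ := ζ
    hζ := hnormSq
    him := ?_
    m := m
    hm := hprim.pow_eq_one
    L := M * (1 + 1 / c)
    M := M
    hM := hM
    hmM := ?_
    hLM := ?_
    hsep := ?_
    hsum := hsum }, hsum0⟩
  · intro him
    have h1 : ζ ^ 2 = 1 := by
      have h2 : ζ.re * ζ.re = 1 := by
        rw [normSq_apply, him] at hnormSq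
        linarith
      apply Complex.ext
      · rw [pow_two, mul_re, him, h2]; simp
      · rw [pow_two, mul_im, him]; simp
    have h3 := hprim.dvd_of_pow_eq_one 2 h1
    have h4 := Nat.le_of_dvd (by norm_num) h3
    omega
  · have := Nat.le_ceil M
    rw [hm]
    push_cast
    linarith
  · have : 0 < 1 / c := by positivity
    nlinarith
  · intro n hn
    have h1 := hcs n hn
    have h2 : 0 < M ^ 2 := by positivity
    have h3 : M ^ 2 ≤ c * (M * (1 + 1 / c)) ^ 2 := by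
      have : c * (M * (1 + 1 / c)) ^ 2 = M ^ 2 * (c + 2 + 1 / c) := by field_simp; ring
      rw [this]
      have h5 : 0 < 1 / c := by positivity
      nlinarith
    refine h3.trans ?_
    exact mul_le_mul_of_nonneg_right h1 (sq_nonneg _)

/-- weight of a word -/
noncomputable def W (s : ℝ) (P : Par) (k : ℕ) (w : Wd k) : ℝ≥0∞ :=
  open scoped Classical in
  if Red k w then ENNReal.ofReal ((φ (P.val k w (origin 4))).t ^ s) else 0

lemma W_succ {s : ℝ} (hs : 0 < s) (P : Par) (k : ℕ) (a : Bool × ℤ) (w : Wd k) :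
    W s P (k + 1) (a, w) ≤
    ENNReal.ofReal ((16 / max (P.M ^ 2) ((a.2 : ℝ) ^ 2)) ^ s) * W s P k w := by
  classical
  obtain ⟨ε, n⟩ := a
  unfold W
  by_cases h : Red (k + 1) ((ε, n), w)
  · rw [if_pos h, if_pos h.2]
    have h1 := P.step_t ε (head k w) n h.1 _ (P.good_val k w h.2)
    have hK25 : 25 ≤ max (P.M ^ 2) ((n : ℝ) ^ 2) := by
      have := le_max_left (P.M ^ 2) ((n : ℝ) ^ 2)
      have hM := P.hM
      nlinarith
    rw [← ENNReal.ofReal_mul (by positivity), ← Real.mul_rpow (by positivity) (U.t_pos _).le]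
    apply ENNReal.ofReal_le_ofReal
    apply Real.rpow_le_rpow (U.t_pos _).le h1 hs.le
  · rw [if_neg h]
    exact zero_le

/-- total weight of the words with `k` letters -/
lemma tsum_W {s : ℝ} (hs : 0 < s) (P : Par)
    (hsum : 2 * ∑' n : ℤ, ENNReal.ofReal ((16 / max (P.M ^ 2) ((n : ℝ) ^ 2)) ^ s) ≤ 1 / 2) (k : ℕ) : ∑' w : Wd k, W s P k w ≤ (1 / 2) ^ k := by
  induction k with
  | zero =>
    have h1 : ∑' w : Wd 0, W s P 0 w = W s P 0 () := by
      have h0 : ∀ f : Unit → ℝ≥0∞, ∑' w : Unit, f w = f () := fun f => by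
        rw [tsum_fintype]
        simp
      exact h0 (W s P 0)
    rw [h1]
    unfold W
    have h2 : Red 0 () := trivial
    rw [if_pos h2, pow_zero]
    change ENNReal.ofReal ((φ (origin 4)).t ^ s) ≤ 1
    rw [φ_origin.2.2, Real.one_rpow, ENNReal.ofReal_one]
  | succ k ih =>
    have h1 : ∑' w : Wd (k + 1), W s P (k + 1) w = ∑' a : Bool × ℤ, ∑' w : Wd k, W s P (k + 1) (a, w) :=
      ENNReal.tsum_prod (f := fun (a : Bool × ℤ) (w : Wd k) => W s P (k + 1) (a, w))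
    rw [h1]
    calc ∑' a : Bool × ℤ, ∑' w : Wd k, W s P (k + 1) (a, w)
        ≤ ∑' a : Bool × ℤ, ∑' w : Wd k,
          ENNReal.ofReal ((16 / max (P.M ^ 2) ((a.2 : ℝ) ^ 2)) ^ s) * W s P k w :=
          ENNReal.tsum_le_tsum fun a => ENNReal.tsum_le_tsum fun w => W_succ hs P k a w
      _ = (∑' a : Bool × ℤ,
          ENNReal.ofReal ((16 / max (P.M ^ 2) ((a.2 : ℝ) ^ 2)) ^ s)) *
          ∑' w : Wd k, W s P k w := by
          simp_rw [ENNReal.tsum_mul_left]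
          rw [ENNReal.tsum_mul_right]
      _ = (2 * ∑' n : ℤ, ENNReal.ofReal ((16 / max (P.M ^ 2) ((n : ℝ) ^ 2)) ^ s)) *
          ∑' w : Wd k, W s P k w := by
          congr 1
          have h2 := ENNReal.tsum_prod (f := fun (_ : Bool) (n : ℤ) =>
            ENNReal.ofReal ((16 / max (P.M ^ 2) ((n : ℝ) ^ 2)) ^ s))
          rw [h2, tsum_fintype]
          simp [two_mul]
      _ ≤ (1 / 2) * (1 / 2) ^ k := mul_le_mul' hsum ih
      _ = (1 / 2) ^ (k + 1) := by rw [pow_succ, mul_comm]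

lemma summable_K {s : ℝ} (hs : 1 / 2 < s) :
    Summable fun n : ℤ => (20 / (1 + (n : ℝ) ^ 2)) ^ s := by
  have h1 : Summable fun n : ℤ => (20 : ℝ) ^ s * |(n : ℝ)| ^ (-(2 * s)) +
      if n = 0 then (20 : ℝ) ^ s else 0 := by
    apply Summable.add
    · exact (Real.summable_abs_int_rpow (by linarith)).mul_left _
    · exact (hasSum_ite_eq (0 : ℤ) _).summable
  refine Summable.of_nonneg_of_le (fun n => by positivity) (fun n => ?_) h1
  by_cases hn : n = 0
  · subst hn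
    rw [if_pos rfl]
    have h2 : (0:ℝ) ≤ (20 : ℝ) ^ s * |((0 : ℤ) : ℝ)| ^ (-(2 * s)) := by positivity
    have h3 : (20 / (1 + (((0 : ℤ) : ℝ)) ^ 2)) ^ s = (20 : ℝ) ^ s := by
      rw [Int.cast_zero]
      norm_num
    rw [h3]
    linarith
  · rw [if_neg hn, add_zero]
    have h3 : 0 < |(n : ℝ)| := abs_pos.mpr (by exact_mod_cast hn)
    have h4 : (20 / (1 + (n : ℝ) ^ 2)) ≤ 20 * |(n : ℝ)| ^ (-2 : ℝ) := by
      rw [Real.rpow_neg h3.le, ← div_eq_mul_inv]
      have : |(n : ℝ)| ^ (2 : ℝ) = (n : ℝ) ^ 2 := by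
        rw [show (2 : ℝ) = ((2 : ℕ) : ℝ) by norm_num, Real.rpow_natCast, sq_abs]
      rw [this]
      have h5 : 0 < (n : ℝ) ^ 2 := by positivity
      apply div_le_div_of_nonneg_left (by norm_num) h5 (by linarith)
    calc (20 / (1 + (n : ℝ) ^ 2)) ^ s ≤ (20 * |(n : ℝ)| ^ (-2 : ℝ)) ^ s :=
          Real.rpow_le_rpow (by positivity) h4 (by linarith)
      _ = 20 ^ s * |(n : ℝ)| ^ (-(2 * s)) := by
          rw [Real.mul_rpow (by norm_num) (by positivity), ← Real.rpow_mul h3.le]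
          congr 2
          ring

/-- The Poincaré series of the group converges at `s`. -/
theorem poincare {s : NNReal} (hs : 1 / 2 < (s : ℝ)) (P : Par)
    (hsum : 2 * ∑' n : ℤ, ENNReal.ofReal ((16 / max (P.M ^ 2) ((n : ℝ) ^ 2)) ^ (s : ℝ)) ≤ 1 / 2) :
    ∑' g : P.G, ENNReal.ofReal (Real.exp (-(s : ℝ) *
    dist (origin 4) ((g : Hyp 4 ≃ᵢ Hyp 4) (origin 4)))) ≠ ∞ := by
  classical
  let I : Type := ℤ × (Σ k, Wd k)
  let R : Set I := {i | Red i.2.1 i.2.2}
  let v : I → (Hyp 4 ≃ᵢ Hyp 4) := fun i => P.g₁ ^ i.1 * P.val i.2.1 i.2.2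
  have g₁mem : P.g₁ ∈ P.G := Subgroup.subset_closure (by simp)
  have g₂mem : P.g₂ ∈ P.G := Subgroup.subset_closure (by simp)
  have genmem : ∀ ε, P.gen ε ∈ P.G := by
    intro ε
    cases ε
    · exact P.G.inv_mem g₂mem
    · exact g₂mem
  have valmem : ∀ k (w : Wd k), P.val k w ∈ P.G := by
    intro k
    induction k with
    | zero => intro w; exact P.G.one_mem
    | succ k ih =>
      intro w
      exact P.G.mul_mem (genmem _) (P.G.mul_mem (P.G.zpow_mem g₁mem _) (ih _))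
  have vmem : ∀ i, v i ∈ P.G := fun i => P.G.mul_mem (P.G.zpow_mem g₁mem _) (valmem _ _)
  let f : R → P.G := fun i => ⟨v i, vmem i⟩
  have hf : Function.Surjective f := by
    rintro ⟨g, hg⟩
    obtain ⟨n, k, w, hw, h⟩ := P.exists_word hg
    exact ⟨⟨(n, ⟨k, w⟩), hw⟩, Subtype.ext h⟩
  let E : I → ℝ≥0∞ := fun i => ENNReal.ofReal (Real.exp (-(s : ℝ) *
    dist (origin 4) (v i (origin 4))))
  let K : ℤ → ℝ≥0∞ := fun n => ENNReal.ofReal ((20 / (1 + (n : ℝ) ^ 2)) ^ (s : ℝ))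
  have hK : ∑' n, K n ≠ ∞ := (summable_K hs).tsum_ofReal_ne_top
  have hpt : ∀ i, R.indicator E i ≤ K i.1 * W s P i.2.1 i.2.2 := by
    rintro ⟨n, k, w⟩
    by_cases h : Red k w
    · have hmem : ((n, ⟨k, w⟩) : I) ∈ R := h
      rw [Set.indicator_of_mem hmem]
      unfold W
      simp only [K, E]
      rw [if_pos h, ← ENNReal.ofReal_mul (by positivity),
        ← Real.mul_rpow (by positivity) (U.t_pos _).le]
      apply ENNReal.ofReal_le_ofReal
      have h1 := P.exp_bound (head k w) _ (P.good_val k w h) n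
      have h2 : Real.exp (-(s : ℝ) * dist (origin 4) (v (n, ⟨k, w⟩) (origin 4))) =
          (Real.exp (-dist (origin 4) ((P.g₁ ^ n) (P.val k w (origin 4))))) ^ (s : ℝ) := by
        rw [← Real.exp_mul]
        congr 1
        have : v (n, ⟨k, w⟩) (origin 4) = (P.g₁ ^ n) (P.val k w (origin 4)) := rfl
        rw [this]
        push_cast
        ring
      rw [h2]
      exact Real.rpow_le_rpow (Real.exp_pos _).le h1 (by linarith)
    · have hmem : ((n, ⟨k, w⟩) : I) ∉ R := h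
      rw [Set.indicator_of_notMem hmem]
      exact zero_le
  have hfin : ∑' i : I, K i.1 * W s P i.2.1 i.2.2 ≠ ∞ := by
    have e1 : ∑' i : I, K i.1 * W s P i.2.1 i.2.2 =
        ∑' n : ℤ, ∑' a : (Σ k, Wd k), K n * W s P a.1 a.2 :=
      ENNReal.tsum_prod (f := fun (n : ℤ) (a : Σ k, Wd k) => K n * W s P a.1 a.2)
    rw [e1]
    simp_rw [ENNReal.tsum_mul_left]
    rw [ENNReal.tsum_mul_right]
    apply ENNReal.mul_ne_top hK
    rw [ENNReal.tsum_sigma (fun k (w : Wd k) => W s P k w)]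
    have e2 : ∑' k, ∑' w : Wd k, W s P k w ≤ ∑' k : ℕ, (1 / 2 : ℝ≥0∞) ^ k :=
      ENNReal.tsum_le_tsum fun k => tsum_W (by linarith) P hsum k
    refine ne_top_of_le_ne_top ?_ e2
    rw [ENNReal.tsum_geometric]
    simp
  refine ne_top_of_le_ne_top hfin ?_
  calc ∑' g : P.G, ENNReal.ofReal (Real.exp (-(s : ℝ) *
        dist (origin 4) ((g : Hyp 4 ≃ᵢ Hyp 4) (origin 4))))
      ≤ ∑' i : R, ENNReal.ofReal (Real.exp (-(s : ℝ) *
        dist (origin 4) (((f i : P.G) : Hyp 4 ≃ᵢ Hyp 4) (origin 4)))) :=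
        ENNReal.tsum_le_tsum_comp_of_surjective hf _
    _ = ∑' i : R, E i := rfl
    _ = ∑' i, R.indicator E i := tsum_subtype R E
    _ ≤ ∑' i : I, K i.1 * W s P i.2.1 i.2.2 := ENNReal.tsum_le_tsum hpt

end Pool.Agent.Y321.Kap
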